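import Mathlib

/-!
# MP_5ee2d0_ag, boundary divisors of type III, `h^(2,1) = 2`: limit periods of invariant cycles

`X_t` is a smooth Calabi-Yau threefold near a special fibre `X_b` of type III, `h^(2,1)(X_t) = 2`, `N`
is the logarithm of the monodromy on `H_3(X_t, ℚ)`. The triple curves of `X_b` are all isomorphic to
one elliptic curve `E`, with periods `w₁`, `w₂`. For a 1-cycle `γ` of `E` the product of `γ` with the
vanishing two-dimensional torus of a triple curve is an invariant cycle with limit period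
`(2 π i)² ∫_γ dx`. We show that these cycles span the kernel of `N`, so that all limit periods of
invariant cycles are in `(2 π i)² (ℚ w₁ + ℚ w₂)`. Consequences: line bundles of degree zero on the
triple curves which are restrictions from double surfaces are torsion, and the multipliers of the
gluing are roots of unity if `E` has no complex multiplication.
-/

namespace Pool.Agent.H39.MN

/-- The homology of `X_t` and its limit periods. -/
structure LimH3 where
  /-- `H_3(X_t, ℚ)` -/
  H : Type
  [grp : AddCommGroup H]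
  [mod : Module ℚ H]
  [fin : FiniteDimensional ℚ H]
  /-- `h^(3,0) = h^(0,3) = 1`, `h^(2,1) = h^(1,2) = 2` -/
  dim : Module.finrank ℚ H = 6
  /-- the logarithm of the monodromy -/
  N : H →ₗ[ℚ] H
  /-- there is no point where four components meet -/
  cube : N ∘ₗ N ∘ₗ N = 0
  /-- type III: `N² ≠ 0` is an isomorphism from `Gr_5` to `Gr_1`, and the Hodge number `h^(3,2)` of
  `Gr_5` is one, since the only Hodge numbers of `Gr_5` are `h^(3,2) = h^(2,3)` -/
  square : 2 ≤ Module.finrank ℚ (LinearMap.range (N ∘ₗ N))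
  /-- the limits of the periods of the holomorphic 3-forms over invariant cycles -/
  per : LinearMap.ker N →ₗ[ℚ] ℂ
  /-- the periods of the elliptic curve `E` -/
  w : Fin 2 → ℂ
  /-- the periods generate a lattice -/
  indep : LinearIndependent ℝ w
  /-- the products of the 1-cycles of a triple curve with its vanishing torus are invariant cycles -/
  torus : (Fin 2 → ℚ) →ₗ[ℚ] LinearMap.ker N
  /-- the triple residue of the holomorphic 3-form is the invariant differential of `E` -/
  per_torus : ∀ c, per (torus c) = (2 * Real.pi * Complex.I) ^ 2 * (c 0 * w 0 + c 1 * w 1)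

attribute [instance] LimH3.grp LimH3.mod LimH3.fin

namespace LimH3

variable (L : LimH3)

/-- the kernel of `N` has dimension at most two -/
theorem finrank_ker_le : Module.finrank ℚ (LinearMap.ker L.N) ≤ 2 := by
  have h1 := LinearMap.finrank_range_add_finrank_ker L.N
  rw [L.dim] at h1
  -- the restriction of `N` to its image
  have h2 := LinearMap.finrank_range_add_finrank_ker (L.N.domRestrict (LinearMap.range L.N))
  have h3 : LinearMap.range (L.N.domRestrict (LinearMap.range L.N)) =
      LinearMap.range (L.N ∘ₗ L.N) := by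
    ext x
    constructor
    · rintro ⟨⟨_, y, rfl⟩, rfl⟩
      exact ⟨y, rfl⟩
    · rintro ⟨y, rfl⟩
      exact ⟨⟨L.N y, y, rfl⟩, rfl⟩
  rw [h3] at h2
  have h4 : Module.finrank ℚ (LinearMap.range (L.N ∘ₗ L.N)) ≤
      Module.finrank ℚ (LinearMap.ker (L.N.domRestrict (LinearMap.range L.N))) := by
    let f : LinearMap.range (L.N ∘ₗ L.N) →ₗ[ℚ]
        LinearMap.ker (L.N.domRestrict (LinearMap.range L.N)) :=
      { toFun := fun x => ⟨⟨x.1, by
          obtain ⟨y, hy⟩ := x.2
          exact ⟨L.N y, hy⟩⟩, by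
          obtain ⟨y, hy⟩ := x.2
          rw [LinearMap.mem_ker]
          change L.N x.1 = 0
          rw [← hy]
          exact LinearMap.congr_fun L.cube y⟩
        map_add' := fun x y => rfl
        map_smul' := fun c x => rfl }
    refine LinearMap.finrank_le_finrank_of_injective (f := f) ?_
    intro x y hxy
    have h5 := congrArg (fun z => z.1.1) hxy
    exact Subtype.ext h5
  have h5 := L.square
  omega

/-- rational combinations of the periods -/
theorem coeff_zero {c : Fin 2 → ℚ} (h : (c 0 : ℂ) * L.w 0 + c 1 * L.w 1 = 0) : c = 0 := by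
  have h1 := (Fintype.linearIndependent_iff (R := ℝ) (v := L.w)).1 L.indep (fun i => (c i : ℝ)) (by
    rw [Fin.sum_univ_two, Complex.real_smul, Complex.real_smul]
    push_cast
    exact h)
  funext i
  exact_mod_cast h1 i

theorem two_pi_I_sq_ne : (2 * Real.pi * Complex.I : ℂ) ^ 2 ≠ 0 :=
  pow_ne_zero 2 Complex.two_pi_I_ne_zero

theorem torus_injective : Function.Injective L.torus := by
  rw [← LinearMap.ker_eq_bot, LinearMap.ker_eq_bot']
  intro c hc
  have h1 := L.per_torus c
  rw [hc, map_zero] at h1
  exact L.coeff_zero ((mul_eq_zero.1 h1.symm).resolve_left two_pi_I_sq_ne)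

/-- the products with the vanishing torus span the kernel of `N` -/
theorem torus_surjective : Function.Surjective L.torus := by
  have h1 : Module.finrank ℚ (Fin 2 → ℚ) = Module.finrank ℚ (LinearMap.ker L.N) := by
    refine le_antisymm (LinearMap.finrank_le_finrank_of_injective L.torus_injective) ?_
    rw [Module.finrank_fin_fun]
    exact L.finrank_ker_le
  exact (LinearMap.injective_iff_surjective_of_finrank_eq_finrank h1).1 L.torus_injective

/-- **Limit periods of invariant cycles.** -/
theorem exists_per (z : LinearMap.ker L.N) :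
    ∃ a b : ℚ, L.per z = (2 * Real.pi * Complex.I) ^ 2 * (a * L.w 0 + b * L.w 1) := by
  obtain ⟨c, rfl⟩ := L.torus_surjective z
  exact ⟨c 0, c 1, L.per_torus c⟩

theorem exists_coeff {z : LinearMap.ker L.N} {u : ℂ}
    (h : L.per z = (2 * Real.pi * Complex.I) ^ 2 * u) : ∃ a b : ℚ, u = a * L.w 0 + b * L.w 1 := by
  obtain ⟨a, b, hab⟩ := L.exists_per z
  rw [h] at hab
  exact ⟨a, b, mul_left_cancel₀ two_pi_I_sq_ne hab⟩

/-- If the limit period of an invariant cycle (the circle bundle of a 2-cycle of a double surface) is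
`(2 π i)² u`, where `u` represents the Abel-Jacobi image of a line bundle of degree zero on `E`, then
this line bundle is torsion. -/
theorem torsion {z : LinearMap.ker L.N} {u : ℂ}
    (h : L.per z = (2 * Real.pi * Complex.I) ^ 2 * u) :
    ∃ n : ℕ, 0 < n ∧ ∃ a b : ℤ, (n : ℂ) * u = a * L.w 0 + b * L.w 1 := by
  obtain ⟨a, b, hab⟩ := L.exists_coeff h
  refine ⟨a.den * b.den, Nat.mul_pos a.den_pos b.den_pos, a.num * b.den, b.num * a.den, ?_⟩
  have ha : (a : ℂ) * a.den = a.num := by exact_mod_cast Rat.mul_den_eq_num a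
  have hb : (b : ℂ) * b.den = b.num := by exact_mod_cast Rat.mul_den_eq_num b
  rw [hab]
  push_cast
  linear_combination (b.den : ℂ) * L.w 0 * ha + (a.den : ℂ) * L.w 1 * hb

/-- `E` has no complex multiplication, and `lam = exp (2 π i δ)` is the multiplier of a closed walk of
double surfaces: the 3-cycles which are swept out by the annuli over the 1-cycles of `E` with
periods `w₁`, `w₂` are invariant and have limit periods `(2 π i)² δ w_i`. Then `δ` is rational. -/
theorem rational (hcm : ∀ a b c : ℚ, (a : ℂ) * L.w 1 ^ 2 + b * (L.w 0 * L.w 1) + c * L.w 0 ^ 2 = 0 →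
    a = 0) {δ : ℂ} (z : Fin 2 → LinearMap.ker L.N)
    (hz : ∀ i, L.per (z i) = (2 * Real.pi * Complex.I) ^ 2 * (δ * L.w i)) : ∃ q : ℚ, δ = q := by
  obtain ⟨a, b, hab⟩ := L.exists_coeff (hz 0)
  obtain ⟨c, d, hcd⟩ := L.exists_coeff (hz 1)
  have h : (b : ℂ) * L.w 1 ^ 2 + ((a - d : ℚ) : ℂ) * (L.w 0 * L.w 1) +
      ((-c : ℚ) : ℂ) * L.w 0 ^ 2 = 0 := by
    push_cast
    linear_combination L.w 0 * hcd - L.w 1 * hab
  have hb : b = 0 := hcm b (a - d) (-c) h
  have h0 : L.w 0 ≠ 0 := by
    intro h0
    have h1 : (fun i : Fin 2 => if i = 0 then (1 : ℚ) else 0) = 0 := L.coeff_zero (by simp [h0])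
    have h2 := congrFun h1 0
    simp at h2
  refine ⟨a, mul_right_cancel₀ h0 ?_⟩
  rw [hab, hb]
  simp

/-- the multiplier is a root of unity -/
theorem root_of_unity (hcm : ∀ a b c : ℚ,
    (a : ℂ) * L.w 1 ^ 2 + b * (L.w 0 * L.w 1) + c * L.w 0 ^ 2 = 0 → a = 0) {lam δ : ℂ} {m : ℕ}
    (hm : 0 < m) (hlam : lam ^ m = Complex.exp (2 * Real.pi * Complex.I * δ))
    (z : Fin 2 → LinearMap.ker L.N)
    (hz : ∀ i, L.per (z i) = (2 * Real.pi * Complex.I) ^ 2 * (δ * L.w i)) :
    ∃ k : ℕ, 0 < k ∧ lam ^ k = 1 := by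
  obtain ⟨q, hq⟩ := L.rational hcm z hz
  refine ⟨m * q.den, Nat.mul_pos hm q.den_pos, ?_⟩
  rw [pow_mul, hlam, ← Complex.exp_nat_mul, hq, Complex.exp_eq_one_iff]
  refine ⟨q.num, ?_⟩
  have h1 : (q : ℂ) * q.den = q.num := by exact_mod_cast Rat.mul_den_eq_num q
  linear_combination (2 * Real.pi * Complex.I : ℂ) * h1

end LimH3

end Pool.Agent.H39.MN
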